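import Pool.Agent.Run7.h60.FADisc2
import Pool.Agent.Run7.h60.FAForm

/-!
# MP_2fc7fa_gt, Q1: spheres of symplectic forms which bound discs of homeomorphisms

Let `X` be a closed manifold with a symplectic form `ω` (for Q1 `X = CP²`).  The group of
diffeomorphisms of `X` acts on the space of symplectic forms, and for `CP²` every form in the class
of `ω` is `φ^*ω` for a diffeomorphism `φ` (Taubes), so the space `S_a` is the quotient of
`Diff_h(CP²)` by the symplectomorphisms, which are homotopy equivalent to `PU(3)` (Gromov): Q1 asks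
in essence whether spheres of diffeomorphisms bound discs of diffeomorphisms, up to `PU(3)`.

The theorem says when a disc of homeomorphisms can be replaced by a disc of diffeomorphisms.  For
every `K ≥ 1` there is `η > 0`, which depends only on `K` and on the dimension, with the following
property.  Let `f_p : X → X` be homeomorphisms, for `p` in the closed unit disc `D` of `ℝ^m`,
continuous in `(p, x)` (nothing more is assumed about the dependence on `p`), such that the `f_p`,
`p ∈ ∂D`, are diffeomorphisms which form a smooth family over the sphere.  Suppose that every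
`(p₀, x₀)` near which the family is not a smooth family of local diffeomorphisms has a smooth
parametrization `A` near `x₀`, bi-Lipschitz with the constant `K` with respect to a fixed function
`d`, and smooth coordinates `B` near `f_{p₀} x₀` such that the maps `h_p = B ∘ f_p ∘ A` are almost
affine: for all `p` near `p₀`, all `z` near `0` and all small scales `r` there is a linear
isomorphism `L`, which may depend on `p`, on `z` and on `r` in an arbitrary way, such that

`‖L⁻¹ (h_p (z + y) - h_p z) - y‖ ≤ η r` for all `y` with `‖y‖ ≤ r`.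

Then there is a smooth family `F_p`, `p ∈ ℝ^m`, of diffeomorphisms with `F_p = f_p` for `p ∈ ∂D`,
arbitrarily close to `f_p` for `p ∈ D`.  Hence, for every symplectic form `ω`, the sphere
`f_p^*ω`, `p ∈ ∂D`, of symplectic forms extends to the disc `F_p^*ω`, `p ∈ D`, of symplectic forms.
It is enough to have the estimate for the scales `r = ε k` of one sequence `ε k → 0`, if
`‖L⁻¹‖ ‖L‖² ε k → 0`, uniformly near `(p₀, 0)`.

So a sphere in `Diff_h(CP²)` which gives a nontrivial element of a homotopy group of `S_a` does not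
bound a disc of homeomorphisms of this kind.
-/

set_option autoImplicit false

open Set Filter Topology Metric Function
open scoped Manifold ContDiff

noncomputable section

namespace Pool.Agent.Results.MP_2fc7fa_gt.AlmostAffineDiscs

open Pool.Agent.Y501.SYP

/-- `ℝⁿ` -/
abbrev R (n : ℕ) : Type := EuclideanSpace ℝ (Fin n)

/-- the closed unit disc of `ℝ^m` -/
abbrev Disc (m : ℕ) : Set (R m) := closedBall 0 1

/-- On the ball of radius `r` about `z` the map `h` differs from an affine map with the linear part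
`L` by at most `η r`, measured after applying the inverse of `L`. -/
def AffineOn {n : ℕ} (η : ℝ) (h : R n → R n) (z : R n) (r : ℝ) (L : R n ≃L[ℝ] R n) : Prop :=
  ∀ y : R n, ‖y‖ ≤ r → ‖L.symm (h (z + y) - h z) - y‖ ≤ η * r

/-- The maps `h p` are almost affine near `0`, for `p` in the disc near `p₀`, with linear parts
`L p z r` which depend on the parameter `p`, on the point `z` and on the scale `r`: either at all
small scales `r`, or at the scales `ε k`, with `‖L⁻¹‖ ‖L‖² ε k → 0`. -/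
def AlmostAffine {m n : ℕ} (η : ℝ) (ε : ℕ → ℝ) (p₀ : R m) (h : R m → R n → R n) : Prop :=
  ∃ (ρ : ℝ) (L : R m → R n → ℝ → (R n ≃L[ℝ] R n)), 0 < ρ ∧
    ((∀ᶠ r in 𝓝[>] (0 : ℝ), ∀ p ∈ Disc m, dist p p₀ < ρ → ∀ z : R n, ‖z‖ < ρ →
        AffineOn η (h p) z r (L p z r)) ∨
      ((∀ᶠ k in atTop, ∀ p ∈ Disc m, dist p p₀ < ρ → ∀ z : R n, ‖z‖ < ρ →
          AffineOn η (h p) z (ε k) (L p z (ε k))) ∧
        ∀ δ : ℝ, 0 < δ → ∀ᶠ k in atTop, ∀ p ∈ Disc m, dist p p₀ < ρ → ∀ z : R n, ‖z‖ < ρ →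
          ‖((L p z (ε k)).symm : R n →L[ℝ] R n)‖ * ‖(L p z (ε k) : R n →L[ℝ] R n)‖ ^ 2 * ε k ≤ δ))

section forms

variable {V : Type} [NormedAddCommGroup V] [NormedSpace ℝ V] {X : Type} [TopologicalSpace X]
  [ChartedSpace V X]

/-- nondegenerate two-forms -/
def Nondegenerate (σ : Form V X 2) : Prop :=
  ∀ (x : X) (v : TangentSpace 𝓘(ℝ, V) x), (∀ w, σ x ![v, w] = 0) → v = 0

/-- symplectic forms: smooth, closed and nondegenerate -/
def IsSymplectic (σ : Form V X 2) : Prop := IsSmooth σ ∧ IsClosedForm σ ∧ Nondegenerate σ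

/-- the pull-back `φ^*σ` -/
def pullback (φ : X → X) (σ : Form V X 2) : Form V X 2 := fun x =>
  (σ (φ x)).compContinuousLinearMap (mfderiv 𝓘(ℝ, V) 𝓘(ℝ, V) φ x)

end forms

section defs

variable (m n : ℕ) {X : Type} [TopologicalSpace X] [ChartedSpace (R n) X]

/-- `φ` is a diffeomorphism -/
def IsDiffeo (φ : X → X) : Prop := ∃ Φ : X ≃ₘ^∞⟮𝓡 n, 𝓡 n⟯ X, ∀ x, Φ x = φ x

/-- the maps `f_p`, `|p| = 1`, are diffeomorphisms and form a smooth family over the unit sphere:
`f (p / |p|, x)` is smooth for `p ≠ 0` -/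
def SmoothSphere (f : R m × X → X) : Prop :=
  (∀ p : R m, ‖p‖ = 1 → IsDiffeo n fun x => f (p, x)) ∧
    ContMDiffOn ((𝓘(ℝ, R m)).prod (𝓡 n)) (𝓡 n) ∞ (fun q : R m × X => f (‖q.1‖⁻¹ • q.1, q.2))
      {q | q.1 ≠ 0}

/-- `F_p`, `p ∈ ℝ^m`, is a smooth family of diffeomorphisms -/
def SmoothFamily (F : R m × X → X) : Prop :=
  ContMDiff ((𝓘(ℝ, R m)).prod (𝓡 n)) (𝓡 n) ∞ F ∧ ∀ p, IsDiffeo n fun x => F (p, x)

/-- `A` is a smooth parametrization of a neighbourhood of `x = A 0` -/
def IsParam (A : R n → X) (x : X) : Prop := A 0 = x ∧ IsLocalDiffeomorphAt (𝓡 n) (𝓡 n) ∞ A 0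

/-- `B` is a smooth coordinate system around `y` -/
def IsCoord (B : X → R n) (y : X) : Prop := IsLocalDiffeomorphAt (𝓡 n) (𝓡 n) ∞ B y

/-- `A` is bi-Lipschitz near `0` with the constant `K`, with respect to `d` -/
def BiLipschitz (d : X → X → ℝ) (K : ℝ) (A : R n → X) : Prop :=
  ∀ᶠ q : R n × R n in 𝓝 0, d (A q.1) (A q.2) ≤ K * ‖q.1 - q.2‖ ∧
    ‖q.1 - q.2‖ ≤ K * d (A q.1) (A q.2)

/-- near `(p₀, x₀)` in `D × X` the family `f` is smooth, and `f_{p₀}` is a local diffeomorphism at
`x₀` -/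
def SmoothNear (f : R m × X → X) (p₀ : R m) (x₀ : X) : Prop :=
  (∀ᶠ q in 𝓝[Disc m ×ˢ (univ : Set X)] (p₀, x₀),
    ContMDiffWithinAt ((𝓘(ℝ, R m)).prod (𝓡 n)) (𝓡 n) ∞ f (Disc m ×ˢ (univ : Set X)) q) ∧
    IsLocalDiffeomorphAt (𝓡 n) (𝓡 n) ∞ (fun x => f (p₀, x)) x₀

/-- the family `f` is almost affine at `(p₀, x₀)`, in a parametrization near `x₀` which is
bi-Lipschitz with the constant `K` and in some coordinates near `f_{p₀} x₀` -/
def AlmostAffineAt (d : X → X → ℝ) (K η : ℝ) (ε : ℕ → ℝ) (f : R m × X → X) (p₀ : R m) (x₀ : X) :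
    Prop :=
  ∃ (A : R n → X) (B : X → R n), IsParam n A x₀ ∧ IsCoord n B (f (p₀, x₀)) ∧
    BiLipschitz n d K A ∧ AlmostAffine η ε p₀ fun p z => B (f (p, A z))

/-- `f_p`, `p ∈ D`, is a disc of homeomorphisms, continuous in `(p, x)`, bounded by a smooth sphere of
diffeomorphisms, and at every `(p, x)` it is a smooth family of local diffeomorphisms or almost
affine -/
structure AlmostAffineDisc (d : X → X → ℝ) (K η : ℝ) (ε : ℕ → ℝ) (f : R m × X → X) : Prop where
  continuous : ContinuousOn f (Disc m ×ˢ univ)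
  bijective : ∀ p ∈ Disc m, Bijective fun x => f (p, x)
  sphere : SmoothSphere m n f
  near : ∀ p ∈ Disc m, ∀ x, SmoothNear m n f p x ∨ AlmostAffineAt m n d K η ε f p x

/-- `F_p`, `p ∈ ℝ^m`, is a smooth family of diffeomorphisms, `F_p = f_p` for `|p| = 1`, and the graph
of `F_p`, `p ∈ D`, is in `O` -/
structure SmoothDisc (f : R m × X → X) (O : Set ((R m × X) × X)) (F : R m × X → X) : Prop where
  smooth : SmoothFamily m n F
  boundary : ∀ p : R m, ‖p‖ = 1 → ∀ x, F (p, x) = f (p, x)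
  graph : ∀ p ∈ Disc m, ∀ x, ((p, x), F (p, x)) ∈ O

variable {m n}

/-- the forms `F_p^*σ`, `p ∈ ℝ^m`, are symplectic, and `F_p^*σ = f_p^*σ` for `|p| = 1` -/
def SymplecticDisc (f F : R m × X → X) (σ : Form (R n) X 2) : Prop :=
  (∀ p, IsSymplectic (pullback (fun x => F (p, x)) σ)) ∧
    ∀ p : R m, ‖p‖ = 1 → pullback (fun x => F (p, x)) σ = pullback (fun x => f (p, x)) σ

end defs

/-- **A disc of homeomorphisms, bounded by a smooth sphere of diffeomorphisms and almost affine at
small scales, is a limit of smooth discs of diffeomorphisms with the same boundary; these give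
discs of symplectic forms.** -/
theorem result (m n : ℕ) (K : ℝ) (hK : 1 ≤ K) : ∃ η : ℝ, 0 < η ∧
    ∀ (X : Type) [TopologicalSpace X] [T2Space X] [CompactSpace X] [ChartedSpace (R n) X]
      [IsManifold (𝓡 n) ∞ X] (d : X → X → ℝ) (ε : ℕ → ℝ), (∀ k, 0 < ε k) →
      Tendsto ε atTop (𝓝 0) → ∀ f : R m × X → X, AlmostAffineDisc m n d K η ε f →
      ∀ O : Set ((R m × X) × X), IsOpen O → (∀ p ∈ Disc m, ∀ x, ((p, x), f (p, x)) ∈ O) →
        ∃ F : R m × X → X, SmoothDisc m n f O F ∧
          ∀ σ : Form (R n) X 2, IsSymplectic σ → SymplecticDisc f F σ := by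
  refine ⟨Run7.h60.Sc.eta n K, Run7.h60.Sc.eta_pos hK, ?_⟩
  intro X _ _ _ _ _ d ε hε hε0 f hD O hO hfO
  obtain ⟨hf, hb, hs, hx⟩ := hD
  obtain ⟨F, e1, e2, e3, e4⟩ := Run7.h60.Sc.affDisc (n := n) f hf hb d hK hε hε0 (fun p hp x => by
      have hp0 : p ≠ 0 := by
        rintro rfl
        rw [norm_zero] at hp
        exact zero_ne_one hp
      have ho : IsOpen {q : R m × X | q.1 ≠ 0} := isOpen_ne.preimage continuous_fst
      constructor
      · filter_upwards [ho.mem_nhds (show (p, x) ∈ {q : R m × X | q.1 ≠ 0} from hp0)] with q hq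
        exact (hs.2 q hq).contMDiffAt (ho.mem_nhds hq)
      · change IsLocalDiffeomorphAt (𝓡 n) (𝓡 n) ∞ (fun x => f (‖p‖⁻¹ • p, x)) x
        rw [hp, inv_one, one_smul]
        obtain ⟨Φ, hΦ⟩ := hs.1 p hp
        have e1 : (fun x => f (p, x)) = Φ := funext fun x => (hΦ x).symm
        rw [e1]
        exact Φ.isLocalDiffeomorph x)
    (fun p hp x => by
      rcases hx p hp x with h | ⟨A, B, ⟨k1, k2⟩, k3, k4, k5⟩
      · exact Or.inl h
      · exact Or.inr ⟨A, B, k1, k2, k3, k4, k5⟩) O hO hfO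
  have hl : ∀ p, IsLocalDiffeomorph (𝓡 n) (𝓡 n) ∞ (fun x => F (p, x)) := fun p x => (e1 (p, x)).2
  have hc : ∀ p, ContMDiff 𝓘(ℝ, R n) 𝓘(ℝ, R n) ∞ (fun x => F (p, x)) := fun p x =>
    ((hl p) x).contMDiffAt
  refine ⟨F, ⟨⟨fun q => (e1 q).1.self_of_nhds, fun p => ⟨(hl p).diffeomorphOfBijective (e2 p),
    fun x => rfl⟩⟩, e3, e4⟩, fun σ hσ => ⟨fun p => ?_, fun p hp => ?_⟩⟩
  · exact ⟨Run7.h60.Sc.pull_smooth (hc p) hσ.1, Run7.h60.Sc.pull_closed (hc p) hσ.2.1,
      Run7.h60.Sc.pull_nondeg (hl p) hσ.2.2⟩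
  · have h1 : (fun x => F (p, x)) = fun x => f (p, x) := funext fun x => e3 p hp x
    rw [h1]

end Pool.Agent.Results.MP_2fc7fa_gt.AlmostAffineDiscs
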