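import Mathlib
import Pool.Agent.Run7.h752.SC.BridgeLW

/-!
# Symplectic forms in a class and degenerate forms without discs tangent to the kernel

`X` is a closed manifold of dimension `2 (m + 1)` oriented by a volume form (for example `CP^2`,
with `m = 1`), and `S` is the space of the positive symplectic forms in the class of `σ₀`. Let

* `D` be the space of the closed forms `τ` in this class with `τ ^ (m + 1)` nonnegative, such that
  `τ ^ m` does not vanish on the set where `τ ^ (m + 1)` vanishes and this set contains no smooth
  immersed disc tangent to the kernel of `τ` (in dimension four: `τ ∧ τ` is nonnegative, `τ` does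
  not vanish anywhere, and the set where `τ ∧ τ` vanishes contains no such disc);
* `R` be the space of the closed forms in this class with nonnegative top power and removable
  degenerate set (it is a countable union of closed parts at each point of which the part is small,
  or contains no disc tangent to the kernel, or there is a curve tangent to the kernel which leaves
  the degenerate set);
* `N` be the space of the closed forms in this class with nonnegative top power and without closed
  currents on the degenerate set.

Then `S ⊆ D ⊆ R ⊆ N`, and for all spaces `T` with `S ⊆ T ⊆ N` (such as `D` and `R`) the families in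
`T`, relative to families in `S`, can be compressed into `S` by homotopies which are in `S` for
positive times; and `S` is weakly contractible if and only if `T` is weakly contractible. All spaces
have the `C^∞` topology.
-/

set_option autoImplicit false

open Set MeasureTheory
open scoped Manifold ContDiff

namespace Pool.Agent.Results.MP_2fc7fa_gt.DisclessForms

open Pool.Agent.Y501.SYP
open Pool.Agent.R772.SYK
open Pool.Agent.R772.SYF
open Pool.Agent.R772.SYD
open Pool.Agent.R772.SYM
open Run7.h752.SYX

theorem result (m d : ℕ) (hd : d = 2 * (m + 1)) (X : Type) [TopologicalSpace X]
    [ChartedSpace (ES d) X] [IsManifold 𝓘(ℝ, ES d) ∞ X] [CompactSpace X] [T2Space X]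
    [MeasurableSpace X] [BorelSpace X]
    (vol : TopForm (ES d) X m) (hvol : IsVolume vol) (σ₀ : Form (ES d) X 2) :
    SympClass vol σ₀ ⊆ DisclessClass vol σ₀ ∧
    DisclessClass vol σ₀ ⊆ RemovableClass vol σ₀ ∧
    RemovableClass vol σ₀ ⊆ LimitClass vol σ₀ ∧
    ∀ T : Set (Form (ES d) X 2), SympClass vol σ₀ ⊆ T → T ⊆ LimitClass vol σ₀ →
      Compressible (SympClass vol σ₀) T ∧
      (WeaklyContractible (SympClass vol σ₀) ↔ WeaklyContractible T) :=
  ⟨symp_discless hd hvol σ₀, discless_removable σ₀, removable_limit hd hvol σ₀,
    fun _ h1 h2 => ⟨compressible_of hd hvol σ₀ h1 h2, weakly_of hd hvol σ₀ h1 h2⟩⟩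

end Pool.Agent.Results.MP_2fc7fa_gt.DisclessForms
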