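import Pool.Agent.Results.MP_28b04d_gt.C1Isotopy
import Pool.Agent.Results.MP_28b04d_gt.MeanOscillation
import Pool.Agent.Run7.h60.FAForm

/-!
# MP_2fc7fa_gt, Q1: path components of the space of symplectic forms

Q1 asks whether the space `S_a` of the symplectic forms on `CP²` in a class `a` is contractible, so in
particular whether it is connected.  By Taubes every form of `S_a` is `f^*ω`, `ω` the Fubini-Study
form, for a diffeomorphism `f` which acts trivially on homology.  The theorem gives conditions under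
which `f^*ω` and `g^*ω` are in the same path component, for all closed manifolds `X` with a
symplectic form `ω`; the path consists of forms `K_t^*ω`, `K` a smooth path of diffeomorphisms (so it
stays in one cohomology class).

* `f` and `g` are joined by a path of homeomorphisms which at every `(t, x)` is of class `C^1` and of
  corank at most one, or has all but one coordinates of class `C^1` while the last one is merely
  continuous (the coordinates come from a family of submersions, or from a map to a manifold of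
  dimension `dim X - 1`).
* `f = G φ` and `g = G ψ`, where `G` is a diffeomorphism and `φ`, `ψ` are diffeomorphisms of `ℝⁿ` with
  compact support, extended by the identity from a chart `α : ℝⁿ → X` (for `CP²`: the affine chart),
  and `ψ` is the identity and all averages of `Dφ` along the dilations of a measure without atoms (for
  instance over balls) are nonsingular; or `φ` and `ψ` are close with respect to a scale up to which the
  mean oscillation of their differentials is small.
* For fixed constants the forms `(G φ)^*ω`, with `φ` supported in a fixed ball and of small mean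
  oscillation up to a fixed scale, lie in finitely many path components, and the number is bounded
  independently of `ω` and `G`.
-/

set_option autoImplicit false

open MeasureTheory Set Metric Function
open scoped Manifold ContDiff

noncomputable section

namespace Pool.Agent.Results.MP_2fc7fa_gt.PathsOfForms

open Pool.Agent.Y501.SYP
open Pool.Agent.Results.MP_28b04d_gt.C1Isotopy (IsPath C1ByFamily C1ByMap)
open Pool.Agent.Results.MP_28b04d_gt.MeanOscillation (IsDiffeo Admissible SupportedIn IsDiffeoX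
  IsChart ChangedBy)

/-- `ℝⁿ` -/
abbrev R (n : ℕ) : Type := EuclideanSpace ℝ (Fin n)

section forms

variable {V : Type} [NormedAddCommGroup V] [NormedSpace ℝ V] {X : Type} [TopologicalSpace X]
  [ChartedSpace V X]

/-- nondegenerate two-forms -/
def Nondegenerate (σ : Form V X 2) : Prop :=
  ∀ (x : X) (v : TangentSpace 𝓘(ℝ, V) x), (∀ w, σ x ![v, w] = 0) → v = 0

/-- symplectic forms: smooth, closed and nondegenerate -/
def IsSymplectic (σ : Form V X 2) : Prop := IsSmooth σ ∧ IsClosedForm σ ∧ Nondegenerate σ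

/-- the pull-back `φ^*σ` -/
def pullback (φ : X → X) (σ : Form V X 2) : Form V X 2 := fun x =>
  (σ (φ x)).compContinuousLinearMap (mfderiv 𝓘(ℝ, V) 𝓘(ℝ, V) φ x)

end forms

section defs

variable {n : ℕ} {X : Type} [TopologicalSpace X] [ChartedSpace (R n) X]

/-- for every symplectic form `σ` the forms `f^*σ` and `g^*σ` are joined by a path of symplectic
forms `K_t^*σ`, `0 ≤ t ≤ 1`, where `K` is a smooth path of diffeomorphisms -/
def FormsJoined (n : ℕ) {X : Type} [TopologicalSpace X] [ChartedSpace (R n) X] (f g : X → X) :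
    Prop :=
  ∀ σ : Form (R n) X 2, IsSymplectic σ →
    ∃ K : ℝ × X → X, ContMDiff ((𝓘(ℝ, ℝ)).prod (𝓡 n)) (𝓡 n) ∞ K ∧
      (∀ t ∈ Icc (0 : ℝ) 1, IsDiffeoX n (fun x => K (t, x)) ∧
        IsSymplectic (pullback (fun x => K (t, x)) σ)) ∧
      pullback (fun x => K (0, x)) σ = pullback f σ ∧ pullback (fun x => K (1, x)) σ = pullback g σ

/-- nonsingular averages along a measure without atoms -/
def NonsingularAverages (α : R n → X) (G : X → X) : Prop :=
  ∀ (μ : Measure (R n)), IsProbabilityMeasure μ → (∃ S : ℝ, ∀ᵐ z ∂μ, ‖z‖ ≤ S) →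
    (∀ z, μ {z} = 0) → ∀ (φ : R n → R n) (f : X → X), IsDiffeo φ → ChangedBy α G φ f →
      (∀ r : ℝ, 0 < r → ∀ x, Injective (∫ z, fderiv ℝ φ (x + r • z) ∂μ : R n →L[ℝ] R n)) →
      FormsJoined n f G

/-- two diffeomorphisms which are close with respect to the scale -/
def ClosePairs (α : R n → X) (G : X → X) : Prop :=
  ∀ M θ r₀ η : ℝ, 0 ≤ M → M * θ < 1 → 0 < r₀ → 2 * n * M * η < r₀ * (1 - M * θ) →
    ∀ φ ψ : R n → R n, Admissible M θ r₀ φ → Admissible M θ r₀ ψ → (∀ x, ‖φ x - ψ x‖ ≤ η) →
      ∀ f g : X → X, ChangedBy α G φ f → ChangedBy α G ψ g → FormsJoined n f g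

/-- the forms `f^*σ`, where `f = G φ` with `φ` admissible and supported in the ball of radius `ρ`, are
joined with one of the `N` forms `(Ψ i)^*σ`, for every symplectic form `σ` -/
def AtMost (N : ℕ) (M θ r₀ ρ : ℝ) (α : R n → X) (G : X → X) : Prop :=
  ∃ Ψ : Fin N → X → X,
    (∀ i, ∃ ψ, Admissible M θ r₀ ψ ∧ SupportedIn ρ ψ ∧ ChangedBy α G ψ (Ψ i)) ∧
    ∀ (φ : R n → R n) (f : X → X), Admissible M θ r₀ φ → SupportedIn ρ φ → ChangedBy α G φ f →
      ∃ i, FormsJoined n f (Ψ i)

end defs

/-- paths of homeomorphisms of class `C^1` and corank one, or with all but one coordinates of class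
`C^1` -/
def RoughPaths (m : ℕ) (X : Type) [TopologicalSpace X] [ChartedSpace (R (m + 1)) X] : Prop :=
  ∀ f : ℝ × X → X, IsPath m f → (C1ByFamily m f ∨ C1ByMap m f) →
    FormsJoined (m + 1) (fun x => f (0, x)) (fun x => f (1, x))

section proofs

variable {n : ℕ} {X : Type} [TopologicalSpace X] [ChartedSpace (R n) X]

theorem joined_of_path [IsManifold (𝓡 n) ∞ X] {K : ℝ × X → X}
    (hK : ContMDiff ((𝓘(ℝ, ℝ)).prod (𝓡 n)) (𝓡 n) ∞ K)
    (hd : ∀ t ∈ Icc (0 : ℝ) 1, IsDiffeoX n (fun x => K (t, x))) {f g : X → X}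
    (h0 : ∀ x, K (0, x) = f x) (h1 : ∀ x, K (1, x) = g x) : FormsJoined n f g := by
  intro σ hσ
  refine ⟨K, hK, fun t ht => ⟨hd t ht, ?_⟩, by rw [funext h0], by rw [funext h1]⟩
  obtain ⟨Φ, hΦ⟩ := hd t ht
  have hf : (fun x => K (t, x)) = Φ := (funext hΦ).symm
  rw [hf]
  exact ⟨Run7.h60.Sc.pull_smooth Φ.contMDiff hσ.1, Run7.h60.Sc.pull_closed Φ.contMDiff hσ.2.1,
    Run7.h60.Sc.pull_nondeg Φ.isLocalDiffeomorph hσ.2.2⟩

theorem joined_of_isotopic [IsManifold (𝓡 n) ∞ X] {f g : X → X}
    (h : Pool.Agent.Results.MP_28b04d_gt.MeanOscillation.Isotopic n f g) : FormsJoined n f g := by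
  obtain ⟨K, h1, h2, h3, h4⟩ := h
  exact joined_of_path h1 h2 h3 h4

end proofs

/-- **Path components of the space of symplectic forms.** -/
theorem result (m : ℕ) : (∀ (X : Type) [TopologicalSpace X] [T2Space X] [CompactSpace X]
      [ChartedSpace (R (m + 1)) X] [IsManifold (𝓡 (m + 1)) ∞ X],
      RoughPaths m X ∧ ∀ (α : R (m + 1) → X) (G : X → X), IsChart α → IsDiffeoX (m + 1) G →
        NonsingularAverages α G ∧ ClosePairs α G) ∧
    ∀ M θ r₀ ρ : ℝ, 0 ≤ M → M * θ < 1 → 0 < r₀ → ∃ N : ℕ,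
      ∀ (X : Type) [TopologicalSpace X] [T2Space X] [CompactSpace X]
        [ChartedSpace (R (m + 1)) X] [IsManifold (𝓡 (m + 1)) ∞ X] (α : R (m + 1) → X) (G : X → X),
        IsChart α → IsDiffeoX (m + 1) G → AtMost N M θ r₀ ρ α G := by
  refine ⟨?_, ?_⟩
  · intro X _ _ _ _ _
    refine ⟨fun f hf hc => ?_, fun α G hα hG => ?_⟩
    · obtain ⟨-, K, ⟨k1, k2⟩, k3, k4⟩ :=
        Pool.Agent.Results.MP_28b04d_gt.C1Isotopy.result m X X f hf hc
      exact joined_of_path k1 (fun t _ => k2 t) k3 k4
    · obtain ⟨-, r2, r3, -, -⟩ := Pool.Agent.Results.MP_28b04d_gt.MeanOscillation.result (m + 1)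
        (Nat.succ_ne_zero m) X α hα G hG
      exact ⟨fun μ h1 h2 h3 φ f h4 h5 h6 => joined_of_isotopic (r2 μ h1 h2 h3 φ f h4 h5 h6),
        fun M θ r₀ η h1 h2 h3 h4 φ ψ h5 h6 h7 f g h8 h9 =>
          joined_of_isotopic (r3 M θ r₀ η h1 h2 h3 h4 φ ψ h5 h6 h7 f g h8 h9)⟩
  · intro M θ r₀ ρ hM hθ hr
    obtain ⟨N, Ψ, h1, h2⟩ := Run7.h7.Avg.finite_classes (vol := (volume : Measure (R (m + 1))))
      hM hr hθ ρ
    refine ⟨N, ?_⟩
    intro X _ _ _ _ _ α G hα hG
    refine ⟨fun i x => G (Run7.h7.AvgExt.ext α (Ψ i) x), fun i => ⟨Ψ i,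
      Pool.Agent.Results.MP_28b04d_gt.MeanOscillation.ofCls (h1 i).1, (h1 i).2,
      Pool.Agent.Results.MP_28b04d_gt.MeanOscillation.changed hα.1 G (Ψ i)⟩,
      fun φ f hφ hρ hf => ?_⟩
    obtain ⟨i, hi⟩ := h2 φ (Pool.Agent.Results.MP_28b04d_gt.MeanOscillation.toCls hφ) hρ
    exact ⟨i, joined_of_isotopic (Pool.Agent.Results.MP_28b04d_gt.MeanOscillation.lift hα hG hf
      (Pool.Agent.Results.MP_28b04d_gt.MeanOscillation.changed hα.1 G (Ψ i)) hi)⟩

end Pool.Agent.Results.MP_2fc7fa_gt.PathsOfForms
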