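import Mathlib
import Pool.Agent.Run7.h752.SC.BridgeW

/-!
# The space of symplectic forms in a class and a larger space of degenerate forms

`X` is a closed manifold of dimension `2 (m + 1)` oriented by a volume form, for instance the
complex projective plane, and `S` is the space of the positive symplectic forms in the class of a
two-form `σ₀`. Let `N` be the space of the closed forms `τ` in this class such that `τ ^ (m + 1)` is
nonnegative and there are no extremal closed currents on the set where `τ ^ (m + 1)` vanishes. Both
spaces have the `C^∞` topology.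

1. A closed form `τ` with nonnegative top power has no extremal closed currents if and only if for
   every test set `C` there is a one-form `α` such that `dα ∧ τ ^ m` is nonnegative over `C` and
   positive at one point of `C`, and if and only if for some one-form `α` and some `c > 0` the forms
   `τ + t dα`, `0 < t ≤ c`, are symplectic with top power at least `c t vol`. In particular the
   elements of `N` are limits of elements of `S`.
2. A continuous family in `N` over a compact Hausdorff space `P`, which is in `S` over a closed set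
   `Q`, is the beginning of a continuous homotopy, constant over `Q`, whose other members are
   families in `S`.
3. The space `S` is weakly contractible if and only if `N` is weakly contractible.

So Q1 is the question, up to weak homotopy, whether `N` is contractible.
-/

set_option autoImplicit false

open Set MeasureTheory
open scoped Manifold ContDiff

namespace Pool.Agent.Results.MP_2fc7fa_gt.WeakContractibility

open Pool.Agent.Y501.SYP
open Pool.Agent.R772.SYK
open Pool.Agent.R772.SYF
open Pool.Agent.R772.SYD
open Pool.Agent.R772.SYM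
open Run7.h752.SYX

theorem result (m d : ℕ) (hd : d = 2 * (m + 1)) (X : Type) [TopologicalSpace X]
    [ChartedSpace (ES d) X] [IsManifold 𝓘(ℝ, ES d) ∞ X] [CompactSpace X] [T2Space X]
    [MeasurableSpace X] [BorelSpace X]
    (vol : TopForm (ES d) X m) (hvol : IsVolume vol) (σ₀ : Form (ES d) X 2) :
    (∀ τ : Form (ES d) X 2, IsClosed2 τ → TopNonneg vol τ → List.TFAE [
      ∀ μ : Measure X, ¬ Extremal vol τ μ,
      ∀ C : Set X, TestSet vol τ C → ∃ (α : Form (ES d) X 1) (ρ : Form (ES d) X 2),
        ExactPair α ρ ∧ SemiPos vol τ ρ C,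
      ∃ (α : Form (ES d) X 1) (ρ : Form (ES d) X 2) (c : ℝ), ExactPair α ρ ∧
        SymplecticUpTo vol τ ρ c]) ∧
    SympClass vol σ₀ ⊆ LimitClass vol σ₀ ∧
    (∀ (P : Type) [TopologicalSpace P] [CompactSpace P] [T2Space P] (Q : Set P)
      (Ω : P → Form (ES d) X 2), IsClosed Q → SmoothFam Ω → (∀ p, Ω p ∈ LimitClass vol σ₀) →
      (∀ q ∈ Q, Ω q ∈ SympClass vol σ₀) →
      ∃ (n : ℕ) (α : Fin n → Form (ES d) X 1) (ρ : Fin n → Form (ES d) X 2)
        (φ : Fin n → P → ℝ), (∀ i, ExactPair (α i) (ρ i)) ∧ (∀ i, Continuous (φ i)) ∧
        (∀ i p, 0 ≤ φ i p) ∧ (∀ i, ∀ q ∈ Q, φ i q = 0) ∧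
        SmoothFam (fun q : ℝ × P => comb (Ω q.2) q.1 (lin (fun i => φ i q.2) ρ)) ∧
        ∀ t : ℝ, 0 < t → t ≤ 1 → ∀ p,
          comb (Ω p) t (lin (fun i => φ i p) ρ) ∈ SympClass vol σ₀) ∧
    (WeaklyContractible (SympClass vol σ₀) ↔ WeaklyContractible (LimitClass vol σ₀)) :=
  ⟨fun _ h h' => limit_tfae hd hvol h h', symp_limit hd hvol σ₀,
    fun _ _ _ _ _ _ hQ hΩ hN hS => compress_class hd hvol σ₀ hQ hΩ hN hS,
    weakly_iff hd hvol σ₀⟩

end Pool.Agent.Results.MP_2fc7fa_gt.WeakContractibility
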